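import Mathlib

/-!
The average divergence of a smooth self-map of a compact convex set is at most the dimension.
-/

set_option autoImplicit false

open MeasureTheory Set

namespace Pool.Agent.MP_d722ac_gt.H21

theorem det_expand {X : Type*} [TopologicalSpace X] {ι : Type*} [Fintype ι] [DecidableEq ι]
    (M : X → Matrix ι ι ℝ) (hM : Continuous M) :
    ∃ ρ : X × ℝ → ℝ, Continuous ρ ∧
      ∀ x r, (1 + r • M x).det = 1 + (M x).trace * r + ρ (x, r) * r ^ 2 := by
  let N : Matrix ι ι C(X × ℝ, ℝ) := Matrix.of fun i j =>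
    ⟨fun z => M z.1 i j, (hM.comp continuous_fst).matrix_elem i j⟩
  let s : C(X × ℝ, ℝ) := ⟨Prod.snd, continuous_snd⟩
  obtain ⟨ρ, h⟩ : ∃ ρ : C(X × ℝ, ℝ), (1 + s • N).det = 1 + N.trace * s + ρ * s ^ 2 :=
    ⟨_, Matrix.det_one_add_smul s N⟩
  refine ⟨ρ, ρ.continuous, fun x r => ?_⟩
  have h2 := congrArg (ContinuousMap.evalAlgHom ℝ ℝ (x, r)) h
  rw [AlgHom.map_det] at h2
  have e1 : (ContinuousMap.evalAlgHom ℝ ℝ (x, r)).mapMatrix (1 + s • N) = 1 + r • M x := by
    ext i j
    by_cases hij : i = j <;> simp [hij, N, s]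
  rw [e1] at h2
  rw [h2]
  simp [N, s, Matrix.trace]

theorem div_le {ι : Type*} [Fintype ι] [DecidableEq ι] (L : Set (EuclideanSpace ℝ ι))
    (hL : IsCompact L) (hc : Convex ℝ L) (Ψ : EuclideanSpace ℝ ι → EuclideanSpace ℝ ι)
    (hΨ : ContDiff ℝ 1 Ψ) (hin : MapsTo Ψ L L) :
    ∫ y in L, ∑ p, (fderiv ℝ Ψ y (EuclideanSpace.single p 1)) p ≤
      Fintype.card ι * volume.real L := by
  have hD : Continuous (fderiv ℝ Ψ) := hΨ.continuous_fderiv (by norm_num)
  have hd : Differentiable ℝ Ψ := hΨ.differentiable (by norm_num)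
  let b := (EuclideanSpace.basisFun ι ℝ).toBasis
  let M : EuclideanSpace ℝ ι → Matrix ι ι ℝ := fun y =>
    LinearMap.toMatrix b b (fderiv ℝ Ψ y : EuclideanSpace ℝ ι →ₗ[ℝ] EuclideanSpace ℝ ι) - 1
  have hMe : ∀ y p q, M y p q = (fderiv ℝ Ψ y (EuclideanSpace.single q 1)) p -
      (1 : Matrix ι ι ℝ) p q := by
    intro y p q
    simp [M, b, LinearMap.toMatrix_apply]
  have hM : Continuous M := by
    refine continuous_matrix fun p q => ?_
    simp only [hMe]
    fun_prop
  have htr : ∀ y, (M y).trace =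
      (∑ p, (fderiv ℝ Ψ y (EuclideanSpace.single p 1)) p) - Fintype.card ι := by
    intro y
    simp [Matrix.trace, hMe, Finset.sum_sub_distrib]
  obtain ⟨ρ, hρ, hdet⟩ := det_expand M hM
  obtain ⟨B, hB⟩ := hL.exists_bound_of_continuousOn hD.continuousOn
  obtain ⟨C, hC⟩ := (hL.prod (isCompact_Icc (a := (0 : ℝ)) (b := 1))).exists_bound_of_continuousOn
    hρ.continuousOn
  have hfin : volume L ≠ ⊤ := hL.measure_lt_top.ne
  have hmeas : MeasurableSet L := hL.measurableSet
  have htc : Continuous fun y => (M y).trace := hM.matrix_trace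
  have key : ∀ r : ℝ, 0 < r → r ≤ 1 → r * (|B| + 1) < 1 →
      ∫ y in L, (M y).trace ≤ C * r * volume.real L := by
    intro r h0 h1 h2
    let Φ : EuclideanSpace ℝ ι → EuclideanSpace ℝ ι := fun y => y + r • (Ψ y - y)
    let D : EuclideanSpace ℝ ι → EuclideanSpace ℝ ι →L[ℝ] EuclideanSpace ℝ ι := fun y =>
      ContinuousLinearMap.id ℝ _ + r • (fderiv ℝ Ψ y - ContinuousLinearMap.id ℝ _)
    have hΦ : ∀ y, HasFDerivAt Φ (D y) y := fun y =>
      (hasFDerivAt_id y).add (((hd y).hasFDerivAt.sub (hasFDerivAt_id y)).const_smul r)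
    have hinj : InjOn Φ L := by
      intro x hx y hy hxy
      have e1 : ‖Ψ x - Ψ y‖ ≤ B * ‖x - y‖ :=
        hc.norm_image_sub_le_of_norm_fderiv_le (fun z _ => hd z) hB hy hx
      have e2 : x - y = r • ((x - y) - (Ψ x - Ψ y)) := by
        have : x + r • (Ψ x - x) = y + r • (Ψ y - y) := hxy
        have e3 : x - y = r • (Ψ y - y) - r • (Ψ x - x) := by
          rw [sub_eq_sub_iff_add_eq_add, this, add_comm]
        calc x - y = r • (Ψ y - y) - r • (Ψ x - x) := e3
          _ = r • ((x - y) - (Ψ x - Ψ y)) := by rw [← smul_sub]; congr 1; abel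
      have e4 : ‖x - y‖ ≤ r * (‖x - y‖ + |B| * ‖x - y‖) := by
        calc ‖x - y‖ = ‖r • ((x - y) - (Ψ x - Ψ y))‖ := by rw [← e2]
          _ = r * ‖(x - y) - (Ψ x - Ψ y)‖ := by rw [norm_smul, Real.norm_of_nonneg h0.le]
          _ ≤ r * (‖x - y‖ + |B| * ‖x - y‖) := by
              gcongr
              refine (norm_sub_le _ _).trans ?_
              gcongr
              exact e1.trans (mul_le_mul_of_nonneg_right (le_abs_self B) (norm_nonneg _))
      have e5 : ‖x - y‖ = 0 := by
        have := norm_nonneg (x - y)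
        nlinarith
      exact sub_eq_zero.1 (norm_eq_zero.1 e5)
    have hsub : Φ '' L ⊆ L := by
      rintro _ ⟨y, hy, rfl⟩
      exact hc.add_smul_sub_mem hy (hin hy) ⟨h0.le, h1⟩
    have hcv := integral_image_eq_integral_abs_det_fderiv_smul volume hmeas
      (fun y _ => (hΦ y).hasFDerivWithinAt) hinj (fun _ => (1 : ℝ))
    have hDd : ∀ y, (D y).det = (1 + r • M y).det := by
      intro y
      rw [ContinuousLinearMap.det, ← LinearMap.det_toMatrix b]
      congr 1
      simp [D, M]
    have hle : volume.real (Φ '' L) ≤ volume.real L := measureReal_mono hsub hfin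
    have hdc : Continuous fun y => |(D y).det| := by
      simp only [hDd]
      exact (continuous_const.add (hM.const_smul r)).matrix_det.abs
    have h3 : ∫ y in L, (1 + (M y).trace * r - C * r ^ 2) ≤ ∫ y in L, |(D y).det| := by
      refine setIntegral_mono_on (Continuous.continuousOn (by fun_prop) |>.integrableOn_compact hL)
        (hdc.continuousOn.integrableOn_compact hL) hmeas fun y hy => ?_
      refine le_trans ?_ (le_abs_self _)
      rw [hDd, hdet]
      have := hC (y, r) ⟨hy, h0.le, h1⟩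
      rw [Real.norm_eq_abs, abs_le] at this
      nlinarith [this.1, sq_nonneg r]
    have i1 : IntegrableOn (fun y => (M y).trace * r) L volume :=
      Continuous.continuousOn (by fun_prop) |>.integrableOn_compact hL
    have i2 : ∀ c : ℝ, IntegrableOn (fun _ : EuclideanSpace ℝ ι => c) L volume := fun c =>
      continuousOn_const.integrableOn_compact hL
    have i4 : IntegrableOn (fun y => 1 + (M y).trace * r) L volume := (i2 1).add i1
    rw [integral_sub i4 (i2 _), integral_add (i2 1) i1, integral_mul_const] at h3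
    simp only [smul_eq_mul, mul_one, setIntegral_const] at h3 hcv
    rw [← hcv] at h3
    have h4 : r * ∫ y in L, (M y).trace ≤ r * (C * r * volume.real L) := by nlinarith
    exact le_of_mul_le_mul_left h4 h0
  have fin : ∫ y in L, (M y).trace ≤ 0 := by
    have t1 : Filter.Tendsto (fun r : ℝ => C * r * volume.real L) (nhdsWithin 0 (Ioi 0))
        (nhds 0) := by
      have : Continuous fun r : ℝ => C * r * volume.real L := by fun_prop
      simpa using (this.tendsto 0).mono_left nhdsWithin_le_nhds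
    refine ge_of_tendsto t1 ?_
    have hB1 : 0 < |B| + 1 := by positivity
    have : Ioo (0 : ℝ) (min 1 (|B| + 1)⁻¹) ∈ nhdsWithin (0 : ℝ) (Ioi 0) :=
      Ioo_mem_nhdsGT (lt_min one_pos (inv_pos.2 hB1))
    filter_upwards [this] with r hr
    have h2 := lt_min_iff.1 hr.2
    refine key r hr.1 h2.1.le ?_
    have := mul_lt_mul_of_pos_right h2.2 hB1
    rwa [inv_mul_cancel₀ hB1.ne'] at this
  simp only [htr] at fin
  have i3 : IntegrableOn (fun y => ∑ p, (fderiv ℝ Ψ y (EuclideanSpace.single p 1)) p) L volume :=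
    Continuous.continuousOn (by fun_prop) |>.integrableOn_compact hL
  rw [integral_sub i3 (continuousOn_const.integrableOn_compact hL)] at fin
  simp only [setIntegral_const, smul_eq_mul] at fin
  linarith

end Pool.Agent.MP_d722ac_gt.H21
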