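import Pool.Agent.MP_d722ac_gt.H21.Mom

/-!
A sixteenth of the operator-norm ball lies in a thin slab and has a long symmetric chord.
-/

set_option autoImplicit false

open MeasureTheory Set Matrix

namespace Pool.Agent.MP_d722ac_gt.H21

open Pool.Agent.MP_d722ac_gt.H93

variable {n : Type*} [Fintype n] [DecidableEq n]

theorem intOn {f : EuclideanSpace ℝ (n × n) → ℝ} (hf : Continuous f) :
    IntegrableOn f (pol (rk1 n)) volume :=
  hf.continuousOn.integrableOn_compact isCompact_pol_rk1

theorem avg_int (F : n → n → n → n → EuclideanSpace ℝ (n × n) → ℝ)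
    (hF : ∀ i k l j, Continuous (F i k l j))
    (row : ∀ (σ : Equiv.Perm n) (s : n → ℝ), (∀ i, s i * s i = 1) →
      ∀ i k l j y, F i k l j (rowAct σ s y) = s i * s k * F (σ i) (σ k) l j y)
    (sym : ∀ i k l j y, F i k l j (trAct y) = F l j i k y) (u : n → n → ℝ) :
    (Fintype.card n : ℝ) ^ 2 *
        ∫ y in pol (rk1 n), ∑ i, ∑ j, ∑ k, ∑ l, u i j * u k l * F i k l j y =
      (∑ i, ∑ j, u i j * u i j) * ∫ y in pol (rk1 n), ∑ i, ∑ j, F i i j j y := by
  have h := avg (fun i k l j => ∫ y in pol (rk1 n), F i k l j y) (fun σ s hs i k l j => by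
    rw [← integral_row σ s hs (F i k l j), ← integral_const_mul]
    simp only [row σ s hs]) (fun i k l j => by
    rw [← integral_tr (F i k l j)]
    simp only [sym]) u
  rw [integral_finsetSum _ fun i _ => intOn (by fun_prop),
    integral_finsetSum _ fun i _ => intOn (by fun_prop)]
  rw [Finset.sum_congr rfl fun i _ => integral_finsetSum _ fun j _ => intOn (hF i i j j), ← h]
  congr 1
  refine Finset.sum_congr rfl fun i _ => ?_
  rw [integral_finsetSum _ fun i _ => intOn (by fun_prop)]
  refine Finset.sum_congr rfl fun j _ => ?_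
  rw [integral_finsetSum _ fun i _ => intOn (by fun_prop)]
  refine Finset.sum_congr rfl fun k _ => ?_
  rw [integral_finsetSum _ fun i _ => intOn (by fun_prop)]
  refine Finset.sum_congr rfl fun l _ => ?_
  rw [integral_const_mul]

theorem integral_inner_sq (u : EuclideanSpace ℝ (n × n)) (hu : ‖u‖ = 1) :
    (Fintype.card n : ℝ) ^ 2 * ∫ y in pol (rk1 n), (inner ℝ u y) ^ 2 =
      ∫ y in pol (rk1 n), hs (mat y) := by
  have h := avg_int (fun i k l j y => y (i, j) * y (k, l)) (fun _ _ _ _ => by fun_prop)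
    (fun σ s _ i k l j y => by
      simp only [rowAct]
      ring) (fun i k l j y => by
      simp only [trAct]
      ring) (mat u)
  have h1 : ∑ i, ∑ j, mat u i j * mat u i j = 1 := by
    have := norm_sq_eq u
    rw [hu] at this
    simpa [hs] using this.symm
  rw [h1, one_mul] at h
  refine Eq.trans ?_ h
  congr 2
  funext y
  rw [inner_eq_sum, sq, Finset.sum_mul]
  refine Finset.sum_congr rfl fun i _ => ?_
  rw [Finset.sum_mul]
  refine Finset.sum_congr rfl fun j _ => ?_
  rw [Finset.mul_sum]
  refine Finset.sum_congr rfl fun k _ => ?_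
  rw [Finset.mul_sum]
  refine Finset.sum_congr rfl fun l _ => ?_
  simp only [mat, of_apply]
  ring

/-- left defect -/
def dl (y : EuclideanSpace ℝ (n × n)) : Matrix n n ℝ := 1 - mat y * (mat y)ᵀ

/-- right defect -/
def dr (y : EuclideanSpace ℝ (n × n)) : Matrix n n ℝ := 1 - (mat y)ᵀ * mat y

theorem dl_apply (y : EuclideanSpace ℝ (n × n)) (i k : n) :
    dl y i k = (if i = k then 1 else 0) - ∑ j, y (i, j) * y (k, j) := by
  simp [dl, mul_apply, mat, one_apply]

theorem dr_apply (y : EuclideanSpace ℝ (n × n)) (i k : n) :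
    dr y i k = (if i = k then 1 else 0) - ∑ j, y (j, i) * y (j, k) := by
  simp [dr, mul_apply, mat, one_apply]

theorem continuous_dl (i k : n) : Continuous fun y : EuclideanSpace ℝ (n × n) => dl y i k := by
  simp only [dl_apply]
  fun_prop

theorem continuous_dr (i k : n) : Continuous fun y : EuclideanSpace ℝ (n × n) => dr y i k := by
  simp only [dr_apply]
  fun_prop

/-- the gain in the direction `u` -/
noncomputable def gain (u y : EuclideanSpace ℝ (n × n)) : ℝ :=
  inner ℝ u (vec (dl y * mat u * dr y))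

theorem gain_eq (u y : EuclideanSpace ℝ (n × n)) :
    gain u y = ∑ i, ∑ j, ∑ k, ∑ l, mat u i j * mat u k l * (dl y i k * dr y l j) := by
  rw [gain, inner_eq_sum]
  refine Finset.sum_congr rfl fun i _ => Finset.sum_congr rfl fun j _ => ?_
  rw [Finset.sum_comm]
  simp only [vec, mul_apply, Finset.mul_sum, Finset.sum_mul]
  refine Finset.sum_congr rfl fun l _ => Finset.sum_congr rfl fun k _ => ?_
  simp only [mat, of_apply]
  ring

theorem continuous_gain (u : EuclideanSpace ℝ (n × n)) : Continuous (gain u) := by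
  have h1 := continuous_dl (n := n)
  have h2 := continuous_dr (n := n)
  have : gain u = fun y => ∑ i, ∑ j, ∑ k, ∑ l, mat u i j * mat u k l * (dl y i k * dr y l j) :=
    funext (gain_eq u)
  rw [this]
  fun_prop

theorem gain_le (u y : EuclideanSpace ℝ (n × n)) (hu : ‖u‖ = 1) (hy : Con (mat y)) :
    gain u y ≤ 1 := by
  have h1 : ‖vec (dl y * mat u * dr y)‖ ^ 2 ≤ 1 := by
    rw [norm_sq_eq, mat_vec]
    have h2 : Con (dr y) := hy.tr.defect_con
    refine (hs_mul_right h2 _).trans ((hs_mul_left hy.defect_con _).trans ?_)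
    rw [← norm_sq_eq, hu, one_pow]
  have h3 := real_inner_le_norm u (vec (dl y * mat u * dr y))
  rw [hu, one_mul] at h3
  have h4 := norm_nonneg (vec (dl y * mat u * dr y))
  refine h3.trans ?_
  nlinarith

theorem integral_gain (u : EuclideanSpace ℝ (n × n)) (hu : ‖u‖ = 1) :
    (Fintype.card n : ℝ) ^ 2 * ∫ y in pol (rk1 n), gain u y =
      ∫ y in pol (rk1 n), (Fintype.card n - hs (mat y)) ^ 2 := by
  have h := avg_int (fun i k l j y => dl y i k * dr y l j)
    (fun i k l j => (continuous_dl i k).mul (continuous_dr l j))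
    (fun σ s hs i k l j y => by
      have e1 : dl (rowAct σ s y) i k = s i * s k * dl y (σ i) (σ k) := by
        simp only [dl_apply, rowAct, mul_sub, Finset.mul_sum, σ.apply_eq_iff_eq]
        congr 1
        · split_ifs with h
          · rw [h, hs, one_mul]
          · rw [mul_zero]
        · exact Finset.sum_congr rfl fun _ _ => by ring
      have e2 : dr (rowAct σ s y) l j = dr y l j := by
        simp only [dr_apply, rowAct]
        congr 1
        rw [← Equiv.sum_comp σ fun x => y (x, l) * y (x, j)]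
        refine Finset.sum_congr rfl fun x _ => ?_
        rw [mul_mul_mul_comm, hs, one_mul]
      rw [e1, e2, mul_assoc (s i * s k)]) (fun i k l j y => by
      simp only [dl_apply, dr_apply, trAct]
      ring) (mat u)
  have h1 : ∑ i, ∑ j, mat u i j * mat u i j = 1 := by
    have := norm_sq_eq u
    rw [hu] at this
    simpa [hs] using this.symm
  rw [h1, one_mul] at h
  simp only [gain_eq]
  refine Eq.trans h ?_
  congr 1
  funext y
  rw [← Finset.sum_mul_sum, sq]
  congr 1
  · simp [dl_apply, Finset.sum_sub_distrib, hs, mat]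
  · rw [← hs_tr]
    simp [dr_apply, Finset.sum_sub_distrib, hs, mat]

theorem good_rk1 [Nonempty n] (u : EuclideanSpace ℝ (n × n)) (hu : ‖u‖ = 1) (R : ℝ) (hR : 0 < R)
    (hN : 8 ≤ Fintype.card n * R ^ 2) :
    ∃ A : Set (EuclideanSpace ℝ (n × n)), volume (pol (rk1 n)) ≤ 16 * volume A ∧
      ∀ y ∈ A, |inner ℝ u y| ≤ R ∧
        ∃ w, 1 / 16 ≤ inner ℝ u w ∧ y + w ∈ pol (rk1 n) ∧ y - w ∈ pol (rk1 n) := by
  set L := pol (rk1 n) with hL
  set N : ℝ := (Fintype.card n : ℝ) with hNdef
  have hN0 : 0 < N := by rw [hNdef]; exact_mod_cast Fintype.card_pos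
  let S : Set (EuclideanSpace ℝ (n × n)) := {y | 1 / 8 ≤ gain u y} ∩ {y | |inner ℝ u y| ≤ R}
  have hS : MeasurableSet S :=
    ((isClosed_le continuous_const (continuous_gain u)).inter
      (isClosed_le (by fun_prop) continuous_const)).measurableSet
  have hLm : MeasurableSet L := isCompact_pol_rk1.measurableSet
  have hfin : volume L ≠ ⊤ := isCompact_pol_rk1.measure_lt_top.ne
  refine ⟨L ∩ S, ?_, ?_⟩
  · have h1 := integral_hs (n := n)
    have h2 := integral_inner_sq u hu
    have h3 := integral_gain u hu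
    have hc := continuous_hs (n := n)
    have i0 : ∀ c : ℝ, IntegrableOn (fun _ : EuclideanSpace ℝ (n × n) => c) L volume := fun c =>
      intOn continuous_const
    have h4 : ∫ y in L, (3 / 4 * N ^ 2 - N * hs (mat y)) ≤ ∫ y in L, (N - hs (mat y)) ^ 2 :=
      setIntegral_mono_on (intOn (by fun_prop)) (intOn (by fun_prop)) hLm fun y _ => by
        nlinarith [sq_nonneg (N / 2 - hs (mat y))]
    rw [integral_sub (i0 _) (intOn (by fun_prop)), setIntegral_const, integral_const_mul,
      smul_eq_mul] at h4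
    have i1 : IntegrableOn (S.indicator fun _ => (1 : ℝ)) L volume := (i0 1).indicator hS
    have i2 : IntegrableOn (fun y => (R ^ 2)⁻¹ * (inner ℝ u y) ^ 2) L volume :=
      intOn (by fun_prop)
    have i3 : IntegrableOn (fun y => 1 / 8 + S.indicator (fun _ => (1 : ℝ)) y) L volume :=
      (i0 _).add i1
    have h5 : ∫ y in L, gain u y ≤
        ∫ y in L, (1 / 8 + S.indicator (fun _ => (1 : ℝ)) y + (R ^ 2)⁻¹ * (inner ℝ u y) ^ 2) := by
      refine setIntegral_mono_on (intOn (continuous_gain u)) (i3.add i2) hLm fun y hy => ?_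
      have g1 := gain_le u y hu ((mem_pol_rk1 y).1 hy)
      have g2 : 0 ≤ (R ^ 2)⁻¹ * (inner ℝ u y) ^ 2 := by positivity
      by_cases hy1 : y ∈ S
      · rw [indicator_of_mem hy1]
        linarith
      · rw [indicator_of_notMem hy1]
        by_cases hy2 : 1 / 8 ≤ gain u y
        · have g3 : R < |inner ℝ u y| := not_le.1 fun h => hy1 ⟨hy2, h⟩
          have g4 : 1 ≤ (R ^ 2)⁻¹ * (inner ℝ u y) ^ 2 := by
            rw [← div_eq_inv_mul, le_div_iff₀ (by positivity), ← sq_abs (inner ℝ u y), one_mul]
            gcongr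
          linarith
        · linarith
    rw [integral_add i3 i2, integral_add (i0 _) i1, integral_const_mul, setIntegral_const,
      smul_eq_mul, setIntegral_indicator hS, setIntegral_const, smul_eq_mul, mul_one] at h5
    rw [← hL, ← hNdef] at h1 h2 h3
    set V := volume.real L with hV
    have hV0 : 0 ≤ V := measureReal_nonneg
    have k1 : V / 4 ≤ ∫ y in L, gain u y := by
      refine le_of_mul_le_mul_left ?_ (pow_pos hN0 2)
      nlinarith
    have k2 : (R ^ 2)⁻¹ * ∫ y in L, (inner ℝ u y) ^ 2 ≤ V / 16 := by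
      rw [← div_eq_inv_mul, div_le_iff₀ (by positivity)]
      refine le_of_mul_le_mul_left ?_ (pow_pos hN0 2)
      have : N * V * 8 ≤ N * V * (N * R ^ 2) := by gcongr
      nlinarith
    have k3 : V ≤ 16 * volume.real (L ∩ S) := by linarith
    have k4 := ENNReal.ofReal_le_ofReal k3
    rwa [hV, ENNReal.ofReal_mul (by norm_num), ofReal_measureReal hfin,
      ofReal_measureReal (ne_top_of_le_ne_top hfin (measure_mono inter_subset_left)),
      ENNReal.ofReal_ofNat] at k4
  · rintro y ⟨hy, h1, h2⟩
    have hy' := (mem_pol_rk1 y).1 hy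
    have hu' := con_of_norm_le u hu.le
    refine ⟨h2, (1 / 2 : ℝ) • vec (dl y * mat u * dr y), ?_, ?_, ?_⟩
    · rw [real_inner_smul_right]
      have : 1 / 8 ≤ inner ℝ u (vec (dl y * mat u * dr y)) := h1
      linarith
    · exact (mem_pol_rk1 _).2 (hy'.push hu')
    · refine (mem_pol_rk1 _).2 ?_
      have := hy'.push hu'.neg
      rw [Matrix.mul_neg, Matrix.neg_mul, smul_neg, ← sub_eq_add_neg] at this
      exact this

end Pool.Agent.MP_d722ac_gt.H21
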