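import Pool.Agent.MP_d722ac_gt.H93.Geo
import Pool.Agent.MP_0502fb_pr.H57.PL

/-!
Central slices of symmetric convex sets, and the lower bound for the polar of a Steiner symmetral.
-/

set_option autoImplicit false

open MeasureTheory Set
open scoped ENNReal

namespace Pool.Agent.MP_d722ac_gt.H21

open Pool.Agent.MP_0502fb_pr.H57 Pool.Agent.MP_d722ac_gt.H93

theorem plw_vol : PLw (volume : Measure ℝ) fun _ => 0 := by
  intro l h0 h1 f g h hf hg hh H
  refine pl_line hf hg hh h0 h1 fun x y => ?_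
  simpa using H x y

theorem plw_vol_pi (n : ℕ) : PLw (volume : Measure (Fin n → ℝ)) fun _ => 0 := by
  induction n with
  | zero =>
    intro l h0 h1 f g h hf hg hh H
    rw [volume_pi, Measure.pi_of_empty, lintegral_dirac' _ hf, lintegral_dirac' _ hg,
      lintegral_dirac' _ hh]
    refine (H _ _).trans (le_of_eq ?_)
    simp only [mul_zero, Real.exp_zero, ENNReal.ofReal_one, mul_one]
    exact congrArg h (Subsingleton.elim _ _)
  | succ n ih =>
    have hp := (volume_preserving_piFinSuccAbove (fun _ : Fin (n + 1) => ℝ) 0).symm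
    let L : (ℝ × (Fin n → ℝ)) →ₗ[ℝ] (Fin (n + 1) → ℝ) :=
      (Fin.consLinearEquiv ℝ fun _ : Fin (n + 1) => ℝ).toLinearMap
    have hL : (L : ℝ × (Fin n → ℝ) → Fin (n + 1) → ℝ) =
        (MeasurableEquiv.piFinSuccAbove (fun _ : Fin (n + 1) => ℝ) 0).symm := by
      funext p; simp [L, MeasurableEquiv.piFinSuccAbove, Fin.consLinearEquiv, Fin.consEquiv]
    rw [← hp.map_eq, ← hL, Measure.volume_eq_prod]
    exact (plw_vol.prod ih).map L (hL ▸ hp.measurable) fun p => by simp

/-- the central slice of a symmetric convex set is the largest -/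
theorem slice_le (m : ℕ) (G : Set (ℝ × (Fin m → ℝ))) (hG : MeasurableSet G) (hc : Convex ℝ G)
    (hn : ∀ z ∈ G, -z ∈ G) (t : ℝ) :
    volume (Prod.mk t ⁻¹' G) ≤ volume (Prod.mk (0 : ℝ) ⁻¹' G) := by
  have m1 : ∀ s : ℝ, MeasurableSet (Prod.mk s ⁻¹' G) := fun s => measurable_prodMk_left hG
  have m2 : MeasurableSet (-(Prod.mk t ⁻¹' G)) := (m1 t).neg
  have key := plw_vol_pi m (1 / 2) (by norm_num) (by norm_num)
    ((Prod.mk t ⁻¹' G).indicator 1) ((-(Prod.mk t ⁻¹' G)).indicator 1)
    ((Prod.mk (0 : ℝ) ⁻¹' G).indicator 1) (measurable_one.indicator (m1 t))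
    (measurable_one.indicator m2) (measurable_one.indicator (m1 0)) (fun x y => by
      by_cases hx : x ∈ Prod.mk t ⁻¹' G
      · by_cases hy : y ∈ -(Prod.mk t ⁻¹' G)
        · have h1 : (t, x) ∈ G := hx
          have h2 : -(t, -y) ∈ G := hn _ hy
          have h3 := hc h1 h2 (by norm_num : (0 : ℝ) ≤ 1 / 2) (by norm_num : (0 : ℝ) ≤ 1 - 1 / 2)
            (by norm_num)
          have h4 : (1 / 2 : ℝ) • x + (1 - 1 / 2 : ℝ) • y ∈ Prod.mk (0 : ℝ) ⁻¹' G := by
            rw [mem_preimage]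
            convert h3 using 1
            ext <;> simp
            ring
          rw [indicator_of_mem hx, indicator_of_mem hy, indicator_of_mem h4]
          simp
        · rw [indicator_of_notMem hy, ENNReal.zero_rpow_of_pos (by norm_num)]
          simp
      · rw [indicator_of_notMem hx, ENNReal.zero_rpow_of_pos (by norm_num)]
        simp)
  rw [lintegral_indicator_one (m1 t), lintegral_indicator_one m2, lintegral_indicator_one (m1 0),
    Measure.measure_neg, ← ENNReal.rpow_add_of_nonneg _ _ (by norm_num) (by norm_num)] at key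
  simpa using key

theorem slab_le (m : ℕ) (G : Set (ℝ × (Fin m → ℝ))) (hG : MeasurableSet G) (hc : Convex ℝ G)
    (hn : ∀ z ∈ G, -z ∈ G) (R : ℝ) :
    volume (G ∩ Icc (-R) R ×ˢ univ) ≤
      ENNReal.ofReal (2 * R) * volume (Prod.mk (0 : ℝ) ⁻¹' G) := by
  rw [Measure.volume_eq_prod, Measure.prod_apply (hG.inter (measurableSet_Icc.prod .univ))]
  calc ∫⁻ t, volume (Prod.mk t ⁻¹' (G ∩ Icc (-R) R ×ˢ univ))
      ≤ ∫⁻ t, (Icc (-R) R).indicator (fun _ => volume (Prod.mk (0 : ℝ) ⁻¹' G)) t := by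
        refine lintegral_mono fun t => ?_
        by_cases ht : t ∈ Icc (-R) R
        · rw [indicator_of_mem ht]
          exact (measure_mono fun z hz => hz.1).trans (slice_le m G hG hc hn t)
        · have : Prod.mk t ⁻¹' (G ∩ Icc (-R) R ×ˢ univ) = ∅ :=
            eq_empty_of_forall_notMem fun z hz => ht hz.2.1
          rw [this, measure_empty]
          exact bot_le
    _ = _ := by
        rw [lintegral_indicator measurableSet_Icc, setLIntegral_const, Real.volume_Icc, mul_comm]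
        congr 2
        ring

section

variable {V : Type*} [NormedAddCommGroup V] [InnerProductSpace ℝ V] [FiniteDimensional ℝ V]
  [MeasurableSpace V] [BorelSpace V]

theorem exists_chart (u : V) (hu : ‖u‖ = 1) :
    ∃ (m : ℕ) (Θ : (ℝ × (Fin m → ℝ)) ≃L[ℝ] V), MeasurePreserving Θ volume volume ∧
      Θ (1, 0) = u ∧ ∀ z, inner ℝ u (Θ z) = z.1 := by
  have hne : u ≠ 0 := by
    rintro rfl
    simp at hu
  have hpos : 0 < Module.finrank ℝ V := Module.finrank_pos_iff_exists_ne_zero.2 ⟨u, hne⟩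
  obtain ⟨m, hm⟩ : ∃ m, Module.finrank ℝ V = m + 1 := ⟨_, (Nat.succ_pred_eq_of_pos hpos).symm⟩
  have ho : Orthonormal ℝ (({0} : Set (Fin (m + 1))).domRestrict fun _ => u) := by
    refine ⟨fun _ => hu, fun i j hij => ?_⟩
    exact absurd (Subsingleton.elim i j) hij
  obtain ⟨b, hb⟩ := ho.exists_orthonormalBasis_extension_of_card_eq (by simpa using hm)
  have hb0 : b 0 = u := hb 0 rfl
  let Θ : (ℝ × (Fin m → ℝ)) ≃ₗ[ℝ] V :=
    ((Fin.consLinearEquiv ℝ fun _ : Fin (m + 1) => ℝ).trans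
      (WithLp.linearEquiv 2 ℝ (Fin (m + 1) → ℝ)).symm).trans b.repr.symm.toLinearEquiv
  have hΘ : ∀ z, Θ z = b.repr.symm (WithLp.toLp 2 (Fin.cons z.1 z.2 : Fin (m + 1) → ℝ)) :=
    fun z => rfl
  refine ⟨m, Θ.toContinuousLinearEquiv, ?_, ?_, fun z => ?_⟩
  · have hp := (volume_preserving_piFinSuccAbove (fun _ : Fin (m + 1) => ℝ) 0).symm
    have h := b.repr.symm.measurePreserving.comp
      ((PiLp.volume_preserving_toLp (Fin (m + 1))).comp hp)
    have e : (Θ.toContinuousLinearEquiv : (ℝ × (Fin m → ℝ)) → V) = ⇑b.repr.symm ∘ WithLp.toLp 2 ∘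
        ⇑(MeasurableEquiv.piFinSuccAbove (fun _ : Fin (m + 1) => ℝ) 0).symm := by
      funext z
      simp [hΘ, MeasurableEquiv.piFinSuccAbove, Fin.consEquiv]
    rw [e]
    exact h
  · rw [LinearEquiv.coe_toContinuousLinearEquiv', hΘ, ← hb0, ← b.repr_symm_single]
    congr 1
    ext i
    refine Fin.cases ?_ (fun j => ?_) i <;> simp
  · rw [LinearEquiv.coe_toContinuousLinearEquiv', hΘ, ← hb0, ← b.repr_apply_apply]
    simp

theorem core (K : Set V) (hK : ∀ x ∈ K, -x ∈ K) (hL : IsCompact (pol K)) (u : V) (hu : ‖u‖ = 1)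
    (a R : ℝ) (hR : 0 < R) (A : Set V)
    (hA : ∀ y ∈ A, |inner ℝ u y| ≤ R ∧ ∃ w, a ≤ inner ℝ u w ∧ y + w ∈ pol K ∧ y - w ∈ pol K) :
    ENNReal.ofReal (a / R) * volume A ≤ volume (pol (stein K u)) := by
  obtain ⟨m, Θ, hΘ, h1, h2⟩ := exists_chart u hu
  have huu : inner ℝ u u = (1 : ℝ) := by rw [real_inner_self_eq_norm_sq, hu]; norm_num
  let G : Set V := {y | ∃ w, a ≤ inner ℝ u w ∧ y + w ∈ pol K ∧ y - w ∈ pol K}
  have hGc : IsCompact G := by
    have : G = (fun q : V × V => (1 / 2 : ℝ) • (q.1 + q.2)) ''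
        ((pol K ×ˢ pol K) ∩ {q | 2 * a ≤ inner ℝ u (q.1 - q.2)}) := by
      ext y
      constructor
      · rintro ⟨w, h3, h4, h5⟩
        refine ⟨(y + w, y - w), ⟨⟨h4, h5⟩, ?_⟩, ?_⟩
        · have e : y + w - (y - w) = (2 : ℝ) • w := by rw [two_smul]; abel
          simp only [mem_ofPred_eq, e, real_inner_smul_right]
          linarith
        · simp only
          module
      · rintro ⟨⟨p, q⟩, ⟨⟨h4, h5⟩, h3⟩, rfl⟩
        refine ⟨(1 / 2 : ℝ) • (p - q), ?_, ?_, ?_⟩
        · simp only [mem_ofPred_eq] at h3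
          rw [real_inner_smul_right]
          linarith
        · convert h4 using 1
          simp only
          module
        · convert h5 using 1
          simp only
          module
    rw [this]
    exact ((hL.prod hL).inter_right (isClosed_le (by fun_prop) (by fun_prop))).image (by fun_prop)
  have hGv : Convex ℝ G := by
    rintro x ⟨v, x1, x2, x3⟩ y ⟨w, y1, y2, y3⟩ s t hs ht hst
    refine ⟨s • v + t • w, ?_, ?_, ?_⟩
    · rw [inner_add_right, real_inner_smul_right, real_inner_smul_right]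
      have e : a = s * a + t * a := by rw [← add_mul, hst, one_mul]
      rw [e]
      gcongr
    · convert convex_pol K x2 y2 hs ht hst using 1
      module
    · convert convex_pol K x3 y3 hs ht hst using 1
      module
  have hGn : ∀ y ∈ G, -y ∈ G := by
    rintro y ⟨w, y1, y2, y3⟩
    refine ⟨w, y1, ?_, ?_⟩
    · convert neg_mem_pol K hK _ y3 using 1
      abel
    · convert neg_mem_pol K hK _ y2 using 1
      abel
  have hG'm : MeasurableSet (Θ ⁻¹' G) := hΘ.measurable hGc.measurableSet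
  have hG'v : Convex ℝ (Θ ⁻¹' G) := hGv.linear_preimage (Θ : (ℝ × (Fin m → ℝ)) →ₗ[ℝ] V)
  have hG'n : ∀ z ∈ Θ ⁻¹' G, -z ∈ Θ ⁻¹' G := fun z hz => by
    rw [mem_preimage, map_neg]
    exact hGn _ hz
  have k1 := slab_le m _ hG'm hG'v hG'n R
  have hS : MeasurableSet (G ∩ {y | |inner ℝ u y| ≤ R}) :=
    hGc.measurableSet.inter (isClosed_le (by fun_prop) (by fun_prop)).measurableSet
  have k2 : volume A ≤ volume (Θ ⁻¹' G ∩ Icc (-R) R ×ˢ univ) := by
    calc volume A ≤ volume (G ∩ {y | |inner ℝ u y| ≤ R}) :=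
          measure_mono fun y hy => ⟨(hA y hy).2, (hA y hy).1⟩
      _ = volume (Θ ⁻¹' (G ∩ {y | |inner ℝ u y| ≤ R})) :=
          (hΘ.measure_preimage hS.nullMeasurableSet).symm
      _ ≤ _ := by
          refine measure_mono fun z hz => ⟨hz.1, ?_, trivial⟩
          have h3 : |inner ℝ u (Θ z)| ≤ R := hz.2
          rw [h2] at h3
          exact abs_le.1 h3
  have k3 : ENNReal.ofReal (2 * a) * volume (Prod.mk (0 : ℝ) ⁻¹' (Θ ⁻¹' G)) ≤
      volume (pol (stein K u)) := by
    rw [← hΘ.measure_preimage (isClosed_pol _).measurableSet.nullMeasurableSet]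
    have e : ENNReal.ofReal (2 * a) = volume (Icc (-a) a) := by
      rw [Real.volume_Icc]
      congr 1
      ring
    rw [e, ← Measure.prod_prod, ← Measure.volume_eq_prod]
    refine measure_mono ?_
    rintro ⟨t, z⟩ ⟨ht, w, w1, w2, w3⟩
    have e2 : Θ (t, z) = Θ (0, z) + t • u := by
      rw [← h1, ← map_smul, ← map_add]
      simp
    rw [mem_preimage, e2]
    refine mem_pol_stein K hK u w (Θ (0, z)) huu (h2 _) (by rwa [add_comm]) ?_ t ?_
    · convert neg_mem_pol K hK _ w3 using 1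
      simp
    · exact (abs_le.2 ht).trans (w1.trans (le_abs_self _))
  calc ENNReal.ofReal (a / R) * volume A
      ≤ ENNReal.ofReal (a / R) * (ENNReal.ofReal (2 * R) *
          volume (Prod.mk (0 : ℝ) ⁻¹' (Θ ⁻¹' G))) := by
        gcongr
        exact k2.trans k1
    _ = ENNReal.ofReal (2 * a) * volume (Prod.mk (0 : ℝ) ⁻¹' (Θ ⁻¹' G)) := by
        rw [← mul_assoc, mul_comm (ENNReal.ofReal (a / R)), ← ENNReal.ofReal_mul (by positivity)]
        congr 2
        field_simp
    _ ≤ _ := k3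

end

end Pool.Agent.MP_d722ac_gt.H21
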