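import Pool.Agent.MP_d722ac_gt.H21.Good
import Pool.Agent.MP_d722ac_gt.H21.Slice

/-!
The trace-class ball: every linear position, every direction.
-/

set_option autoImplicit false

open MeasureTheory Set
open scoped ENNReal

namespace Pool.Agent.MP_d722ac_gt.H21

open Pool.Agent.MP_d722ac_gt.H93

theorem pol_pol_pol {V : Type*} [NormedAddCommGroup V] [InnerProductSpace ℝ V] (S : Set V) :
    pol (pol (pol S)) = pol S :=
  Subset.antisymm (fun _ hz x hx => hz x (subset_pol_pol S hx)) (subset_pol_pol _)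

theorem transfer {V : Type*} [NormedAddCommGroup V] [InnerProductSpace ℝ V] [FiniteDimensional ℝ V]
    [MeasurableSpace V] [BorelSpace V] {n : Type*} [Fintype n] [DecidableEq n] [Nonempty n]
    (F : EuclideanSpace ℝ (n × n) ≃L[ℝ] V) (G : V ≃L[ℝ] EuclideanSpace ℝ (n × n))
    (hFG : ∀ x z, inner ℝ (F x) z = inner ℝ x (G z)) (c : ℝ≥0∞)
    (hc : ∀ X, volume (G ⁻¹' X) = c * volume X) (u : V) (hu : ‖u‖ = 1) :
    ENNReal.ofReal (√(Fintype.card n) / 768) * volume (pol (F '' pol (pol (rk1 n)))) ≤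
      volume (pol (stein (F '' pol (pol (rk1 n))) u)) := by
  have hp : pol (F '' pol (pol (rk1 n))) = G ⁻¹' pol (rk1 n) := by
    rw [← pol_pol_pol (rk1 n)]
    ext z
    simp only [pol_pol_pol]
    rw [← pol_pol_pol (rk1 n), mem_preimage]
    simp only [pol_pol_pol]
    constructor
    · intro h
      rw [← pol_pol_pol (rk1 n)]
      intro x hx
      rw [← hFG]
      exact h _ ⟨x, hx, rfl⟩
    · rintro h _ ⟨x, hx, rfl⟩
      rw [hFG, real_inner_comm]
      exact hx _ h
  have hN0 : (0 : ℝ) < Fintype.card n := by exact_mod_cast Fintype.card_pos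
  have hs0 : 0 < √(Fintype.card n : ℝ) := Real.sqrt_pos.2 hN0
  have hu0 : F.symm u ≠ 0 := by
    intro h
    have : u = 0 := by simpa using h
    simp [this] at hu
  set r := ‖F.symm u‖ with hr
  have hr0 : 0 < r := norm_pos_iff.2 hu0
  have hu1 : ‖r⁻¹ • F.symm u‖ = 1 := by
    rw [norm_smul, norm_inv, Real.norm_of_nonneg hr0.le, ← hr, inv_mul_cancel₀ hr0.ne']
  have hin : ∀ z, inner ℝ u z = r * inner ℝ (r⁻¹ • F.symm u) (G z) := by
    intro z
    rw [real_inner_smul_left, ← mul_assoc, mul_inv_cancel₀ hr0.ne', one_mul, ← hFG,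
      F.apply_symm_apply]
  obtain ⟨A, hA1, hA2⟩ := good_rk1 _ hu1 (3 / √(Fintype.card n : ℝ)) (by positivity) (by
    rw [div_pow, Real.sq_sqrt hN0.le, mul_div_cancel₀ _ hN0.ne']
    norm_num)
  have hK : ∀ x ∈ F '' pol (pol (rk1 n)), -x ∈ F '' pol (pol (rk1 n)) := by
    rintro _ ⟨x, hx, rfl⟩
    exact ⟨-x, neg_mem_pol _ (neg_mem_pol _ rk1_neg) x hx, map_neg _ _⟩
  have key := core _ hK (by
    rw [hp]
    exact G.toHomeomorph.isCompact_preimage.2 isCompact_pol_rk1) u hu (r / 16)
    (r * (3 / √(Fintype.card n : ℝ))) (by positivity) (G ⁻¹' A) (fun z hz => by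
      obtain ⟨h1, w, h2, h3, h4⟩ := hA2 _ hz
      refine ⟨?_, G.symm w, ?_, ?_, ?_⟩
      · rw [hin, abs_mul, abs_of_pos hr0]
        gcongr
      · rw [hin, G.apply_symm_apply, div_eq_mul_one_div]
        gcongr
      · rw [hp, mem_preimage, map_add, G.apply_symm_apply]
        exact h3
      · rw [hp, mem_preimage, map_sub, G.apply_symm_apply]
        exact h4)
  refine le_trans ?_ key
  rw [hp, hc, hc]
  calc ENNReal.ofReal (√(Fintype.card n) / 768) * (c * volume (pol (rk1 n)))
      ≤ ENNReal.ofReal (√(Fintype.card n) / 768) * (c * (16 * volume A)) := by gcongr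
    _ = ENNReal.ofReal (√(Fintype.card n) / 768) * ENNReal.ofReal 16 * (c * volume A) := by
        rw [ENNReal.ofReal_ofNat]
        ring
    _ = _ := by
        rw [← ENNReal.ofReal_mul (by positivity)]
        congr 2
        field_simp
        norm_num

theorem main (N : ℕ) (hN : 1 ≤ N) : ∃ K : Set (EuclideanSpace ℝ (Fin (N * N))),
    IsCompact K ∧ Convex ℝ K ∧ (interior K).Nonempty ∧ (∀ x ∈ K, -x ∈ K) ∧
      ∀ (T : EuclideanSpace ℝ (Fin (N * N)) ≃ₗ[ℝ] EuclideanSpace ℝ (Fin (N * N)))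
        (u : EuclideanSpace ℝ (Fin (N * N))), ‖u‖ = 1 →
        ENNReal.ofReal (√N / 768) * volume (pol (T '' K)) ≤ volume (pol (stein (T '' K) u)) := by
  have : Nonempty (Fin N) := ⟨⟨0, hN⟩⟩
  let e : EuclideanSpace ℝ (Fin N × Fin N) ≃ₗᵢ[ℝ] EuclideanSpace ℝ (Fin (N * N)) :=
    LinearIsometryEquiv.piLpCongrLeft 2 ℝ ℝ finProdFinEquiv
  have hc : IsCompact (pol (pol (rk1 (Fin N)))) :=
    (isCompact_closedBall _ _).of_isClosed_subset (isClosed_pol _)
      (pol_subset_ball _ 1 one_pos ball_subset_pol_rk1)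
  refine ⟨e '' pol (pol (rk1 (Fin N))), hc.image e.continuous,
    (convex_pol _).linear_image e.toLinearEquiv.toLinearMap, ?_, ?_, fun T u hu => ?_⟩
  · have h1 := ball_subset_pol _ _ (by positivity) (pol_rk1_subset (n := Fin N))
    have h2 : (0 : EuclideanSpace ℝ (Fin N × Fin N)) ∈ interior (pol (pol (rk1 (Fin N)))) :=
      mem_interior.2 ⟨_, h1, Metric.isOpen_ball, Metric.mem_ball_self (by positivity)⟩
    refine ⟨e 0, ?_⟩
    have h3 := e.toHomeomorph.image_interior (pol (pol (rk1 (Fin N))))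
    exact h3 ▸ mem_image_of_mem _ h2
  · rintro _ ⟨x, hx, rfl⟩
    exact ⟨-x, neg_mem_pol _ (neg_mem_pol _ rk1_neg) x hx, map_neg _ _⟩
  · let S : EuclideanSpace ℝ (Fin (N * N)) ≃ₗ[ℝ] EuclideanSpace ℝ (Fin (N * N)) :=
      LinearEquiv.ofLinearMap (LinearMap.adjoint T.toLinearMap) (LinearMap.adjoint T.symm.toLinearMap)
        (by rw [← LinearMap.adjoint_comp]; simp) (by rw [← LinearMap.adjoint_comp]; simp)
    have h := transfer (e.toContinuousLinearEquiv.trans T.toContinuousLinearEquiv)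
      (S.toContinuousLinearEquiv.trans e.symm.toContinuousLinearEquiv) (fun x z => by
        have h1 : inner ℝ (e x) (LinearMap.adjoint T.toLinearMap z) = inner ℝ (T (e x)) z :=
          LinearMap.adjoint_inner_right T.toLinearMap (e x) z
        have h2 := e.inner_map_map x (e.symm (S z))
        rw [e.apply_symm_apply] at h2
        exact h1.symm.trans h2)
      (ENNReal.ofReal |LinearMap.det (S.symm : EuclideanSpace ℝ (Fin (N * N)) →ₗ[ℝ] _)|)
      (fun X => by
        rw [← e.symm.measurePreserving.measure_preimage_emb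
          e.symm.toHomeomorph.measurableEmbedding X,
          ← Measure.addHaar_preimage_linearEquiv volume S]
        rfl) u hu
    rw [Fintype.card_fin] at h
    rw [← image_comp]
    exact h

end Pool.Agent.MP_d722ac_gt.H21
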