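import Pool.Agent.MP_d722ac_gt.H93.Geo

/-!
The unit ball of the operator norm on square real matrices.
-/

set_option autoImplicit false

open MeasureTheory Set Matrix

namespace Pool.Agent.MP_d722ac_gt.H21

open Pool.Agent.MP_d722ac_gt.H93

variable {n : Type*} [Fintype n]

/-- contractions -/
def Con (A : Matrix n n ℝ) : Prop := ∀ a b : n → ℝ, 2 * (a ⬝ᵥ A *ᵥ b) ≤ a ⬝ᵥ a + b ⬝ᵥ b

theorem two_dot (a b : n → ℝ) : 2 * (a ⬝ᵥ b) ≤ a ⬝ᵥ a + b ⬝ᵥ b := by
  simp only [dotProduct, Finset.mul_sum, ← Finset.sum_add_distrib]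
  exact Finset.sum_le_sum fun i _ => by nlinarith [sq_nonneg (a i - b i)]

theorem dot_nonneg (a : n → ℝ) : 0 ≤ a ⬝ᵥ a :=
  Finset.sum_nonneg fun i _ => mul_self_nonneg (a i)

theorem dot_tr (A : Matrix n n ℝ) (a b : n → ℝ) : a ⬝ᵥ A *ᵥ b = (Aᵀ *ᵥ a) ⬝ᵥ b := by
  rw [dotProduct_mulVec, mulVec_transpose]

theorem Con.norm {A : Matrix n n ℝ} (h : Con A) (b : n → ℝ) :
    (A *ᵥ b) ⬝ᵥ (A *ᵥ b) ≤ b ⬝ᵥ b := by
  have := h (A *ᵥ b) b
  linarith

theorem con_of_norm {A : Matrix n n ℝ} (h : ∀ b, (A *ᵥ b) ⬝ᵥ (A *ᵥ b) ≤ b ⬝ᵥ b) : Con A := by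
  intro a b
  have := two_dot a (A *ᵥ b)
  have := h b
  linarith

theorem Con.tr {A : Matrix n n ℝ} (h : Con A) : Con Aᵀ := by
  intro a b
  rw [dot_tr, transpose_transpose, dotProduct_comm]
  have := h b a
  linarith

theorem Con.neg {A : Matrix n n ℝ} (h : Con A) : Con (-A) := by
  refine con_of_norm fun b => ?_
  simpa [neg_mulVec] using h.norm b

theorem Con.mul {A B : Matrix n n ℝ} (hA : Con A) (hB : Con B) : Con (A * B) := by
  refine con_of_norm fun b => ?_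
  rw [← mulVec_mulVec]
  exact (hA.norm _).trans (hB.norm b)

/-- squared Hilbert-Schmidt norm -/
def hs (A : Matrix n n ℝ) : ℝ := ∑ i, ∑ j, A i j * A i j

theorem hs_tr (A : Matrix n n ℝ) : hs Aᵀ = hs A := by
  simp only [hs, transpose_apply]
  exact Finset.sum_comm

theorem hs_mul_left {P : Matrix n n ℝ} (h : Con P) (B : Matrix n n ℝ) : hs (P * B) ≤ hs B := by
  simp only [hs]
  rw [Finset.sum_comm, Finset.sum_comm (f := fun i j => B i j * B i j)]
  exact Finset.sum_le_sum fun j _ => h.norm fun i => B i j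

theorem hs_mul_right {Q : Matrix n n ℝ} (h : Con Q) (B : Matrix n n ℝ) : hs (B * Q) ≤ hs B := by
  rw [← hs_tr, transpose_mul, ← hs_tr B]
  exact hs_mul_left h.tr _

variable [DecidableEq n]

theorem Con.defect {A : Matrix n n ℝ} (h : Con A) (a : n → ℝ) :
    ((1 - A * Aᵀ) *ᵥ a) ⬝ᵥ ((1 - A * Aᵀ) *ᵥ a) ≤ a ⬝ᵥ a - (Aᵀ *ᵥ a) ⬝ᵥ (Aᵀ *ᵥ a) := by
  rw [sub_mulVec, one_mulVec, ← mulVec_mulVec, sub_dotProduct, dotProduct_sub, dotProduct_sub,
    dotProduct_comm (A *ᵥ (Aᵀ *ᵥ a)) a, dot_tr A a]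
  have := h.norm (Aᵀ *ᵥ a)
  linarith

theorem Con.defect_con {A : Matrix n n ℝ} (h : Con A) : Con (1 - A * Aᵀ) := by
  refine con_of_norm fun a => (h.defect a).trans ?_
  have := dot_nonneg (Aᵀ *ᵥ a)
  linarith

theorem Con.push {A v : Matrix n n ℝ} (h : Con A) (hv : Con v) :
    Con (A + (1 / 2 : ℝ) • ((1 - A * Aᵀ) * v * (1 - Aᵀ * A))) := by
  intro a b
  have e : (1 - A * Aᵀ)ᵀ = 1 - A * Aᵀ := by simp [transpose_sub, transpose_mul]
  rw [add_mulVec, smul_mulVec, dotProduct_add, dotProduct_smul, ← mulVec_mulVec, ← mulVec_mulVec,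
    dot_tr (1 - A * Aᵀ), e, smul_eq_mul]
  have h1 := hv ((1 - A * Aᵀ) *ᵥ a) ((1 - Aᵀ * A) *ᵥ b)
  have h2 := h.defect a
  have h3 := h.tr.defect b
  rw [transpose_transpose] at h3
  have h4 := two_dot a (A *ᵥ b)
  have h5 := two_dot (Aᵀ *ᵥ a) b
  rw [← dot_tr] at h5
  linarith

theorem Con.hs_le {A : Matrix n n ℝ} (h : Con A) : hs A ≤ Fintype.card n := by
  simp only [hs]
  rw [Finset.sum_comm]
  calc ∑ j, ∑ i, A i j * A i j ≤ ∑ _j : n, (1 : ℝ) := Finset.sum_le_sum fun j _ => by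
        have := h.norm (Pi.single j 1)
        simpa [dotProduct, Pi.single_apply] using this
    _ = _ := by simp

omit [DecidableEq n]

/-- a vector as a matrix -/
def mat (y : EuclideanSpace ℝ (n × n)) : Matrix n n ℝ := Matrix.of fun i j => y (i, j)

/-- a matrix as a vector -/
def vec (A : Matrix n n ℝ) : EuclideanSpace ℝ (n × n) := WithLp.toLp 2 fun p => A p.1 p.2

omit [Fintype n] in
theorem mat_vec (A : Matrix n n ℝ) : mat (vec A) = A := rfl

omit [Fintype n] in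
theorem mat_add (x y : EuclideanSpace ℝ (n × n)) : mat (x + y) = mat x + mat y := rfl

omit [Fintype n] in
theorem mat_sub (x y : EuclideanSpace ℝ (n × n)) : mat (x - y) = mat x - mat y := rfl

theorem inner_eq_sum (x y : EuclideanSpace ℝ (n × n)) :
    inner ℝ x y = ∑ i, ∑ j, x (i, j) * y (i, j) := by
  rw [PiLp.inner_apply, Fintype.sum_prod_type]
  simp [mul_comm]

theorem norm_sq_eq (x : EuclideanSpace ℝ (n × n)) : ‖x‖ ^ 2 = hs (mat x) := by
  rw [← real_inner_self_eq_norm_sq, inner_eq_sum]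
  rfl

/-- normalised matrices of rank at most one -/
def rk1 (n : Type*) [Fintype n] : Set (EuclideanSpace ℝ (n × n)) :=
  {x | ∃ a b : n → ℝ, x = (2 / (a ⬝ᵥ a + b ⬝ᵥ b)) • vec (vecMulVec a b)}

theorem inner_rk (a b : n → ℝ) (y : EuclideanSpace ℝ (n × n)) :
    inner ℝ (vec (vecMulVec a b)) y = a ⬝ᵥ mat y *ᵥ b := by
  rw [inner_eq_sum]
  simp only [vec, vecMulVec_apply, dotProduct, mulVec, mat, of_apply, Finset.mul_sum]
  refine Finset.sum_congr rfl fun i _ => Finset.sum_congr rfl fun j _ => by ring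

theorem mem_pol_rk1 (y : EuclideanSpace ℝ (n × n)) : y ∈ pol (rk1 n) ↔ Con (mat y) := by
  constructor
  · intro h a b
    have h1 := h _ ⟨a, b, rfl⟩
    rw [real_inner_smul_left, inner_rk] at h1
    have ha := dot_nonneg a
    have hb := dot_nonneg b
    rcases (add_nonneg ha hb).eq_or_lt with h0 | h0
    · have : a = 0 := dotProduct_self_eq_zero.1 (by linarith)
      rw [this]
      simpa using hb
    · rwa [div_mul_eq_mul_div, div_le_one h0] at h1
  · rintro h _ ⟨a, b, rfl⟩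
    rw [real_inner_smul_left, inner_rk, div_mul_eq_mul_div]
    exact div_le_one_of_le₀ (h a b) (add_nonneg (dot_nonneg a) (dot_nonneg b))

theorem rk1_neg : ∀ x ∈ rk1 n, -x ∈ rk1 n := by
  rintro _ ⟨a, b, rfl⟩
  refine ⟨-a, b, ?_⟩
  ext p
  simp [vec, vecMulVec_apply]

theorem con_of_norm_le (u : EuclideanSpace ℝ (n × n)) (hu : ‖u‖ ≤ 1) : Con (mat u) := by
  intro a b
  rw [← inner_rk]
  have h1 := real_inner_le_norm (vec (vecMulVec a b)) u
  have h2 : ‖vec (vecMulVec a b)‖ ^ 2 = (a ⬝ᵥ a) * (b ⬝ᵥ b) := by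
    rw [norm_sq_eq, mat_vec]
    simp only [hs, vecMulVec_apply, dotProduct, Finset.sum_mul_sum]
    refine Finset.sum_congr rfl fun i _ => Finset.sum_congr rfl fun j _ => by ring
  have ha := dot_nonneg a
  have hb := dot_nonneg b
  have h3 : 2 * ‖vec (vecMulVec a b)‖ ≤ a ⬝ᵥ a + b ⬝ᵥ b := by
    refine le_of_sq_le_sq ?_ (by positivity)
    nlinarith [sq_nonneg (a ⬝ᵥ a - b ⬝ᵥ b)]
  have h4 := norm_nonneg (vec (vecMulVec a b))
  nlinarith

end Pool.Agent.MP_d722ac_gt.H21
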