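import Pool.Agent.MP_d722ac_gt.H21.Mat
import Pool.Agent.MP_d722ac_gt.H21.Div

/-!
Moments of the uniform measure on the unit ball of the operator norm.
-/

set_option autoImplicit false

open MeasureTheory Set Matrix

namespace Pool.Agent.MP_d722ac_gt.H21

open Pool.Agent.MP_d722ac_gt.H93

variable {n : Type*} [Fintype n] [DecidableEq n]

theorem pol_rk1_subset :
    pol (rk1 n) ⊆ Metric.closedBall 0 (Fintype.card n + 1 : ℝ) := by
  intro y hy
  rw [mem_closedBall_zero_iff]
  have h1 := ((mem_pol_rk1 y).1 hy).hs_le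
  rw [← norm_sq_eq] at h1
  have h2 : (0 : ℝ) ≤ Fintype.card n := Nat.cast_nonneg _
  refine le_of_sq_le_sq ?_ (by positivity)
  nlinarith

theorem isCompact_pol_rk1 : IsCompact (pol (rk1 n)) :=
  (isCompact_closedBall _ _).of_isClosed_subset (isClosed_pol _) pol_rk1_subset

omit [DecidableEq n] in
theorem ball_subset_pol_rk1 : Metric.closedBall 0 1 ⊆ pol (rk1 n) := fun u hu =>
  (mem_pol_rk1 u).2 (con_of_norm_le u (mem_closedBall_zero_iff.1 hu))

/-- the cubic map -/
def cub (y : EuclideanSpace ℝ (n × n)) : EuclideanSpace ℝ (n × n) :=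
  vec (mat y * (mat y)ᵀ * mat y)

omit [DecidableEq n] in
theorem cub_apply (y : EuclideanSpace ℝ (n × n)) (p : n × n) :
    cub y p = ∑ l, (∑ k, y (p.1, k) * y (l, k)) * y (l, p.2) := rfl

omit [DecidableEq n] in
theorem contDiff_cub : ContDiff ℝ 1 (cub (n := n)) := by
  rw [contDiff_euclidean]
  intro p
  simp only [cub_apply]
  fun_prop

theorem fderiv_cub (y : EuclideanSpace ℝ (n × n)) (i j : n) :
    (fderiv ℝ cub y (EuclideanSpace.single (i, j) 1)) (i, j) =
      (∑ k, y (i, k) * y (i, k)) + y (i, j) * y (i, j) + ∑ l, y (l, j) * y (l, j) := by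
  have h0 : ∀ q : n × n, HasFDerivAt (fun z : EuclideanSpace ℝ (n × n) => z q)
      (EuclideanSpace.proj (𝕜 := ℝ) q) y := fun q => (EuclideanSpace.proj (𝕜 := ℝ) q).hasFDerivAt
  have h1 := (EuclideanSpace.proj (𝕜 := ℝ) (i, j)).hasFDerivAt.comp y
    ((contDiff_cub.differentiable (by norm_num)) y).hasFDerivAt
  have h2 := HasFDerivAt.fun_sum (u := Finset.univ) fun l _ =>
    (HasFDerivAt.fun_sum (u := Finset.univ) fun k _ => (h0 (i, k)).fun_mul (h0 (l, k))).fun_mul
      (h0 (l, j))
  have h3 := congrArg (fun T => T (EuclideanSpace.single (i, j) 1)) (h1.unique h2)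
  refine Eq.trans h3 ?_
  simp [Finset.sum_add_distrib, ite_and]
  ring

theorem sum_fderiv_cub (y : EuclideanSpace ℝ (n × n)) :
    ∑ p, (fderiv ℝ cub y (EuclideanSpace.single p 1)) p =
      (2 * Fintype.card n + 1) * hs (mat y) := by
  rw [Fintype.sum_prod_type]
  simp only [fderiv_cub, Finset.sum_add_distrib, Finset.sum_const, Finset.card_univ, nsmul_eq_mul,
    ← Finset.mul_sum]
  rw [Finset.sum_comm (f := fun j l => y (l, j) * y (l, j))]
  simp only [hs, mat, of_apply]
  ring

omit [DecidableEq n] in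
theorem continuous_hs : Continuous fun y : EuclideanSpace ℝ (n × n) => hs (mat y) := by
  simp only [hs, mat, of_apply]
  fun_prop

theorem integral_hs : 2 * ∫ y in pol (rk1 n), hs (mat y) ≤
    Fintype.card n * volume.real (pol (rk1 n)) := by
  have h := div_le (pol (rk1 n)) isCompact_pol_rk1 (convex_pol _) cub contDiff_cub (fun y hy => by
    have := (mem_pol_rk1 y).1 hy
    exact (mem_pol_rk1 _).2 ((this.mul this.tr).mul this))
  simp only [sum_fderiv_cub, integral_const_mul, Fintype.card_prod, Nat.cast_mul] at h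
  have h1 : 0 ≤ ∫ y in pol (rk1 n), hs (mat y) :=
    integral_nonneg fun y => by
      simp only [Pi.zero_apply, ← norm_sq_eq]
      positivity
  have h2 : (0 : ℝ) ≤ volume.real (pol (rk1 n)) := measureReal_nonneg
  rcases (Nat.cast_nonneg (α := ℝ) (Fintype.card n)).eq_or_lt with h0 | h0
  · rw [← h0] at h ⊢
    linarith
  · refine le_of_mul_le_mul_left ?_ h0
    nlinarith

omit [DecidableEq n] in
theorem integral_act (π : (n × n) ≃ (n × n)) (s : n × n → ℝ) (hs : ∀ p, s p * s p = 1)
    (T : EuclideanSpace ℝ (n × n) → EuclideanSpace ℝ (n × n)) (hT : ∀ y p, T y p = s p * y (π p))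
    (hL : ∀ y, Con (mat (T y)) ↔ Con (mat y)) (f : EuclideanSpace ℝ (n × n) → ℝ) :
    ∫ y in pol (rk1 n), f (T y) = ∫ y in pol (rk1 n), f y := by
  let T' : EuclideanSpace ℝ (n × n) →ₗᵢ[ℝ] EuclideanSpace ℝ (n × n) :=
    { toFun := T
      map_add' := fun x y => by
        ext p
        simp [hT, mul_add]
      map_smul' := fun c x => by
        ext p
        simp [hT, mul_left_comm]
      norm_map' := fun x => by
        simp only [EuclideanSpace.norm_eq, LinearMap.coe_mk, AddHom.coe_mk, hT, Real.norm_eq_abs,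
          sq_abs]
        congr 1
        rw [← π.sum_comp fun p => x p ^ 2]
        refine Finset.sum_congr rfl fun p _ => ?_
        rw [mul_pow, sq (s p), hs, one_mul] }
  let e := T'.toLinearIsometryEquiv rfl
  have h := e.measurePreserving.setIntegral_preimage_emb
    e.toHomeomorph.measurableEmbedding f (pol (rk1 n))
  have e2 : e ⁻¹' pol (rk1 n) = pol (rk1 n) := by
    ext y
    rw [mem_preimage, mem_pol_rk1, mem_pol_rk1]
    exact hL y
  rw [e2] at h
  exact h

/-- signed permutation of the rows -/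
def rowAct (σ : Equiv.Perm n) (s : n → ℝ) (y : EuclideanSpace ℝ (n × n)) :
    EuclideanSpace ℝ (n × n) := WithLp.toLp 2 fun p => s p.1 * y (σ p.1, p.2)

/-- transposition -/
def trAct (y : EuclideanSpace ℝ (n × n)) : EuclideanSpace ℝ (n × n) :=
  WithLp.toLp 2 fun p => y (p.2, p.1)

omit [DecidableEq n] in
theorem integral_row (σ : Equiv.Perm n) (s : n → ℝ) (hs : ∀ i, s i * s i = 1)
    (f : EuclideanSpace ℝ (n × n) → ℝ) :
    ∫ y in pol (rk1 n), f (rowAct σ s y) = ∫ y in pol (rk1 n), f y := by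
  refine integral_act (σ.prodCongr (Equiv.refl n)) (fun p => s p.1) (fun p => hs p.1) _
    (fun y p => rfl) (fun y => ?_) f
  have key : ∀ b, (mat (rowAct σ s y) *ᵥ b) ⬝ᵥ (mat (rowAct σ s y) *ᵥ b) =
      (mat y *ᵥ b) ⬝ᵥ (mat y *ᵥ b) := by
    intro b
    have e : ∀ i, (mat (rowAct σ s y) *ᵥ b) i = s i * (mat y *ᵥ b) (σ i) := by
      intro i
      simp [mat, rowAct, mulVec, dotProduct, Finset.mul_sum, mul_assoc]
    rw [dotProduct, dotProduct, ← Equiv.sum_comp σ fun i => (mat y *ᵥ b) i * (mat y *ᵥ b) i]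
    refine Finset.sum_congr rfl fun i _ => ?_
    rw [e, mul_mul_mul_comm, hs, one_mul]
  exact ⟨fun h => con_of_norm fun b => key b ▸ h.norm b,
    fun h => con_of_norm fun b => (key b).symm ▸ h.norm b⟩

omit [DecidableEq n] in
theorem integral_tr (f : EuclideanSpace ℝ (n × n) → ℝ) :
    ∫ y in pol (rk1 n), f (trAct y) = ∫ y in pol (rk1 n), f y :=
  integral_act (Equiv.prodComm n n) (fun _ => 1) (fun _ => mul_one 1) trAct
    (fun _ _ => (one_mul _).symm)
    (fun y => (show mat (trAct y) = (mat y)ᵀ from rfl) ▸ ⟨fun h => h.tr, fun h => h.tr⟩) f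

theorem avg (β : n → n → n → n → ℝ)
    (row : ∀ (σ : Equiv.Perm n) (s : n → ℝ), (∀ i, s i * s i = 1) →
      ∀ i k l j, β i k l j = s i * s k * β (σ i) (σ k) l j)
    (sym : ∀ i k l j, β i k l j = β l j i k) (u : n → n → ℝ) :
    (Fintype.card n : ℝ) ^ 2 * ∑ i, ∑ j, ∑ k, ∑ l, u i j * u k l * β i k l j =
      (∑ i, ∑ j, u i j * u i j) * ∑ i, ∑ j, β i i j j := by
  have off : ∀ i k l j, k ≠ i → β i k l j = 0 := by
    intro i k l j h
    have := row 1 (fun x => if x = i then -1 else 1) (fun x => by split_ifs <;> norm_num) i k l j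
    simp [h] at this
    linarith
  have d1 : ∀ i i' j, β i i j j = β i' i' j j := by
    intro i i' j
    have := row (Equiv.swap i i') (fun _ => 1) (fun _ => mul_one 1) i i j j
    simpa using this
  have d2 : ∀ i j i' j', β i' i' j' j' = β i i j j := by
    intro i j i' j'
    rw [d1 i' i, sym, d1 j' j, sym]
  have e1 : ∀ i j, ∑ k, ∑ l, u i j * u k l * β i k l j = u i j * u i j * β i i j j := by
    intro i j
    rw [Finset.sum_eq_single i, Finset.sum_eq_single j]
    · intro l _ hl
      rw [sym, off _ _ _ _ hl.symm, mul_zero]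
    · simp
    · intro k _ hk
      simp [off _ _ _ _ hk]
    · simp
  simp only [e1]
  rw [Finset.mul_sum, Finset.sum_mul]
  refine Finset.sum_congr rfl fun i _ => ?_
  rw [Finset.mul_sum, Finset.sum_mul]
  refine Finset.sum_congr rfl fun j _ => ?_
  simp only [d2 i j, Finset.sum_const, Finset.card_univ, nsmul_eq_mul]
  ring

end Pool.Agent.MP_d722ac_gt.H21
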